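import Pool.Agent.Helper98.GX.St2

/-!
Project GX, module FSP: a rational function has finitely many zeros and poles.
-/

set_option autoImplicit false

namespace Pool.Agent.Helper9.GX

open Pool.Agent.Helper98.GX
open Pool.Agent.Helper53.CX (DivVal LinSys IsNefCartier)

variable {K : Type} [Field K] [Algebra ℂ K]

private lemma ord_one (p : DivVal K) : p.ord 1 = 0 := by
  have h := p.ord_mul 1 1 one_ne_zero one_ne_zero
  rw [mul_one] at h
  omega

private lemma ord_inv (p : DivVal K) {f : K} (hf : f ≠ 0) : p.ord f⁻¹ = - p.ord f := by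
  have h := p.ord_mul f f⁻¹ hf (inv_ne_zero hf)
  rw [mul_inv_cancel₀ hf, ord_one] at h
  omega

private lemma ord_pow (p : DivVal K) {f : K} (hf : f ≠ 0) (n : ℕ) :
    p.ord (f ^ n) = n * p.ord f := by
  induction n with
  | zero => rw [pow_zero, ord_one]; simp
  | succ n ih =>
    rw [pow_succ, p.ord_mul _ _ (pow_ne_zero n hf) hf, ih]
    push_cast
    ring

private lemma ord_zpow (p : DivVal K) {f : K} (hf : f ≠ 0) (n : ℤ) :
    p.ord (f ^ n) = n * p.ord f := by
  obtain ⟨m, rfl | rfl⟩ := n.eq_nat_or_neg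
  · rw [zpow_natCast, ord_pow p hf]
  · rw [zpow_neg, zpow_natCast, ord_inv p (pow_ne_zero m hf), ord_pow p hf]
    ring

/-- The centre of a valuation which is nonnegative on `R`. -/
private def centre (R : Subalgebra ℂ K) (p : DivVal K) (hp : ∀ f ∈ R, 0 ≤ p.ord f) : Ideal R where
  carrier := {r | (r : K) = 0 ∨ 0 < p.ord (r : K)}
  add_mem' := by
    intro a b ha hb
    simp only [Set.mem_setOf_eq] at ha hb ⊢
    by_cases ha0 : (a : K) = 0
    · rcases hb with hb | hb
      · left
        push_cast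
        rw [ha0, hb, add_zero]
      · right
        push_cast
        rwa [ha0, zero_add]
    · by_cases hb0 : (b : K) = 0
      · rcases ha with ha | ha
        · exact absurd ha ha0
        · right
          push_cast
          rwa [hb0, add_zero]
      · by_cases hs : (a : K) + (b : K) = 0
        · left
          push_cast
          exact hs
        · right
          push_cast
          have h := p.ord_add _ _ ha0 hb0 hs
          have ha' := ha.resolve_left ha0
          have hb' := hb.resolve_left hb0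
          exact lt_of_lt_of_le (lt_min ha' hb') h
  zero_mem' := by
    left
    rfl
  smul_mem' := by
    intro c a ha
    simp only [Set.mem_setOf_eq, smul_eq_mul] at ha ⊢
    by_cases hc : (c : K) = 0
    · left
      push_cast
      rw [hc, zero_mul]
    · by_cases ha0 : (a : K) = 0
      · left
        push_cast
        rw [ha0, mul_zero]
      · right
        push_cast
        rw [p.ord_mul _ _ hc ha0]
        have h1 := hp c c.2
        have h2 := ha.resolve_left ha0
        omega

private lemma mem_centre {R : Subalgebra ℂ K} {p : DivVal K} {hp : ∀ f ∈ R, 0 ≤ p.ord f} {r : R} :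
    r ∈ centre R p hp ↔ (r : K) = 0 ∨ 0 < p.ord (r : K) := Iff.rfl

private lemma centre_prime (R : Subalgebra ℂ K) (p : DivVal K) (hp : ∀ f ∈ R, 0 ≤ p.ord f) :
    (centre R p hp).IsPrime := by
  refine ⟨?_, ?_⟩
  · rw [Ideal.ne_top_iff_one, mem_centre]
    rintro (h | h)
    · exact one_ne_zero h
    · have h1 : (((1 : R) : K)) = 1 := rfl
      rw [h1, ord_one] at h
      exact lt_irrefl _ h
  · intro a b hab
    rw [mem_centre] at hab
    rw [mem_centre, mem_centre]
    by_cases ha0 : (a : K) = 0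
    · exact Or.inl (Or.inl ha0)
    · by_cases hb0 : (b : K) = 0
      · exact Or.inr (Or.inl hb0)
      · have hab' : (((a * b : R)) : K) = (a : K) * (b : K) := rfl
        rw [hab'] at hab
        have h := hab.resolve_left (mul_ne_zero ha0 hb0)
        rw [p.ord_mul _ _ ha0 hb0] at h
        have h1 := hp a a.2
        have h2 := hp b b.2
        by_cases h3 : 0 < p.ord (a : K)
        · exact Or.inl (Or.inr h3)
        · right
          right
          omega

private lemma centre_min (R : Subalgebra ℂ K) (p : DivVal K) (hp : IsPrimeOf R p) (x : R)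
    (hx0 : (x : K) ≠ 0) (hx : p.ord (x : K) ≠ 0) :
    centre R p hp.1 ∈ (Ideal.span {x}).minimalPrimes := by
  have hxpos : 0 < p.ord (x : K) := lt_of_le_of_ne (hp.1 x x.2) (Ne.symm hx)
  refine ⟨⟨centre_prime R p hp.1, ?_⟩, ?_⟩
  · rw [Ideal.span_singleton_le_iff_mem, mem_centre]
    exact Or.inr hxpos
  · rintro Q ⟨hQ, hxQ⟩ hQP y hy
    rw [Ideal.span_singleton_le_iff_mem] at hxQ
    by_cases hy0 : (y : K) = 0
    · have : y = 0 := Subtype.ext hy0
      rw [this]
      exact Q.zero_mem
    · have hypos := (mem_centre.mp hy).resolve_left hy0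
      obtain ⟨c, hc⟩ := Int.eq_ofNat_of_zero_le hxpos.le
      have hc1 : 1 ≤ c := by omega
      have hyc : (y : K) ^ c ≠ 0 := pow_ne_zero _ hy0
      have hq : 0 ≤ p.ord ((y : K) ^ c * (x : K)⁻¹) := by
        rw [p.ord_mul _ _ hyc (inv_ne_zero hx0), ord_inv p hx0, ord_pow p hy0, hc]
        have : (c : ℤ) * 1 ≤ c * p.ord (y : K) := by
          refine mul_le_mul_of_nonneg_left ?_ (by positivity)
          omega
        omega
      obtain ⟨u, hu, s, hs, hs0, hs1, hsu⟩ :=
        hp.2 _ (mul_ne_zero hyc (inv_ne_zero hx0)) hq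
      have heq : (⟨s, hs⟩ : R) * y ^ c = ⟨u, hu⟩ * x := by
        apply Subtype.ext
        show s * (y : K) ^ c = u * (x : K)
        rw [← hsu]
        field_simp
      have hmem : (⟨s, hs⟩ : R) * y ^ c ∈ Q := by
        rw [heq]
        exact Q.mul_mem_left _ hxQ
      rcases hQ.mem_or_mem hmem with h | h
      · exfalso
        have h2 := mem_centre.mp (hQP h)
        rcases h2 with h2 | h2
        · exact hs0 h2
        · have : p.ord s = 0 := hs1
          have h3 : 0 < p.ord s := h2
          omega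
      · exact hQ.mem_of_pow_mem _ h

private lemma nonneg_of_centre (R : Subalgebra ℂ K) (p q : DivVal K) (hp : IsPrimeOf R p)
    (hq : IsPrimeOf R q) (h : centre R p hp.1 = centre R q hq.1) (f : K) (hf : f ≠ 0)
    (hpf : 0 ≤ p.ord f) : 0 ≤ q.ord f := by
  obtain ⟨a, ha, b, hb, hb0, hb1, hba⟩ := hp.2 f hf hpf
  have hbn : (⟨b, hb⟩ : R) ∉ centre R q hq.1 := by
    rw [← h, mem_centre]
    rintro (h1 | h1)
    · exact hb0 h1
    · have h2 : 0 < p.ord b := h1
      omega
  rw [mem_centre] at hbn
  push Not at hbn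
  have hqb : q.ord b ≤ 0 := hbn.2
  have hqb' := hq.1 b hb
  have hqa := hq.1 a ha
  rw [← hba, q.ord_mul _ _ hb0 hf] at hqa
  omega

private lemma centre_inj (R : Subalgebra ℂ K) (p q : DivVal K) (hp : IsPrimeOf R p)
    (hq : IsPrimeOf R q) (h : centre R p hp.1 = centre R q hq.1) : p = q := by
  obtain ⟨t, ht0, ht1⟩ := p.exists_one
  have key : ∀ f : K, f ≠ 0 → q.ord f = p.ord f * q.ord t := by
    intro f hf
    have hg : f * t ^ (- p.ord f) ≠ 0 := mul_ne_zero hf (zpow_ne_zero _ ht0)
    have hpg : p.ord (f * t ^ (- p.ord f)) = 0 := by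
      rw [p.ord_mul _ _ hf (zpow_ne_zero _ ht0), ord_zpow p ht0, ht1]
      ring
    have h1 := nonneg_of_centre R p q hp hq h _ hg (by rw [hpg])
    have h2 := nonneg_of_centre R p q hp hq h _ (inv_ne_zero hg)
      (by rw [ord_inv p hg, hpg]; simp)
    rw [ord_inv q hg] at h2
    rw [q.ord_mul _ _ hf (zpow_ne_zero _ ht0), ord_zpow q ht0] at h1 h2
    have h3 : q.ord f + -p.ord f * q.ord t = 0 := by omega
    linarith
  have hqt : 0 ≤ q.ord t := nonneg_of_centre R p q hp hq h t ht0 (by rw [ht1]; norm_num)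
  obtain ⟨s, hs0, hs1⟩ := q.exists_one
  have h1 := key s hs0
  rw [hs1] at h1
  have hqt1 : q.ord t = 1 := by
    have hd : q.ord t ∣ 1 := ⟨p.ord s, by rw [mul_comm]; exact h1⟩
    exact Int.eq_one_of_dvd_one hqt hd
  have hord : p.ord = q.ord := by
    funext f
    by_cases hf : f = 0
    · rw [hf, p.ord_zero, q.ord_zero]
    · rw [key f hf, hqt1, mul_one]
  cases p
  cases q
  simp only at hord
  subst hord
  rfl

private lemma chart_noeth (G : LinSys K) (g0 : K) : IsNoetherianRing (chart G g0) := by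
  have hfin : {f : K | ∃ a ∈ G.gens, f = a / g0}.Finite := by
    have h : {f : K | ∃ a ∈ G.gens, f = a / g0} = (fun a => a / g0) '' (G.gens : Set K) := by
      ext f
      constructor
      · rintro ⟨a, ha, rfl⟩
        exact ⟨a, ha, rfl⟩
      · rintro ⟨a, ha, rfl⟩
        exact ⟨a, ha, rfl⟩
    rw [h]
    exact G.gens.finite_toSet.image _
  have hfg : (chart G g0).FG := by
    rw [Subalgebra.fg_def]
    exact ⟨_, hfin, rfl⟩
  have hft : Algebra.FiniteType ℂ (chart G g0) := (Subalgebra.fg_iff_finiteType _).mp hfg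
  exact Algebra.FiniteType.isNoetherianRing ℂ _

private lemma fin_chart (R : Subalgebra ℂ K) [IsNoetherianRing R] (x : R) (hx : (x : K) ≠ 0) :
    {p : DivVal K | IsPrimeOf R p ∧ p.ord (x : K) ≠ 0}.Finite := by
  classical
  have hfin := Ideal.finite_minimalPrimes_of_isNoetherianRing R (Ideal.span {x})
  let F : DivVal K → Ideal R := fun p =>
    if h : ∀ f ∈ R, 0 ≤ p.ord f then centre R p h else ⊥
  refine Set.Finite.of_finite_image (f := F) (hfin.subset ?_) ?_
  · rintro _ ⟨p, ⟨hp, hpx⟩, rfl⟩
    show F p ∈ _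
    have : F p = centre R p hp.1 := dif_pos hp.1
    rw [this]
    exact centre_min R p hp x hx hpx
  · rintro p ⟨hp, _⟩ q ⟨hq, _⟩ hpq
    have h1 : F p = centre R p hp.1 := dif_pos hp.1
    have h2 : F q = centre R q hq.1 := dif_pos hq.1
    have h3 : F p = F q := hpq
    rw [h1, h2] at h3
    exact centre_inj R p q hp hq h3

theorem hFSP : StFSP := by
  intro K _ _ V f hf
  have hsub : {p : DivVal K | p ∈ V.primes ∧ p.ord f ≠ 0} ⊆
      ⋃ g0 ∈ V.G.gens, {p : DivVal K | IsPrimeOf (chart V.G g0) p ∧ p.ord f ≠ 0} := by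
    rintro p ⟨⟨g0, hg0, hp⟩, hpf⟩
    simp only [Set.mem_iUnion]
    exact ⟨g0, hg0, hp, hpf⟩
  refine Set.Finite.subset ?_ hsub
  refine Set.Finite.biUnion (V.G.gens.finite_toSet) ?_
  intro g0 hg0
  obtain ⟨a, ha, b, hb, hb0, hba⟩ := V.frac g0 hg0 f
  have ha0 : a ≠ 0 := by
    rw [← hba]
    exact mul_ne_zero hb0 hf
  have := chart_noeth V.G g0
  have h1 := fin_chart (chart V.G g0) ⟨a, ha⟩ ha0
  have h2 := fin_chart (chart V.G g0) ⟨b, hb⟩ hb0
  refine (h1.union h2).subset ?_
  rintro p ⟨hp, hpf⟩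
  by_cases hpa : p.ord a = 0
  · right
    refine ⟨hp, ?_⟩
    show p.ord b ≠ 0
    intro hpb
    rw [← hba, p.ord_mul _ _ hb0 hf, hpb, zero_add] at hpa
    exact hpf hpa
  · exact Or.inl ⟨hp, hpa⟩

end Pool.Agent.Helper9.GX
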